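import Pool.Agent.W670.ML.Defs2

set_option autoImplicit false

/-!
# ML2-DM: discriminants of composita of several fields
-/

namespace Pool.Agent.W733.ML2

open NumberField Pool.Agent.W670.ML

theorem nf_of_fin (K M : Type) [Field K] [NumberField K] [Field M] [Algebra K M]
    [FiniteDimensional K M] : NumberField M := by
  have : CharZero M := charZero_of_injective_algebraMap (algebraMap K M).injective
  have : IsScalarTower ℚ K M := IsScalarTower.rat
  exact { to_charZero := inferInstance, to_finiteDimensional := FiniteDimensional.trans ℚ K M }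

theorem relDisc_of_finrank_one (h2 : S_DI) (K M : Type) [Field K] [NumberField K] [Field M]
    [NumberField M] [Algebra K M] (e : M ≃ₐ[K] K) : relDisc K M = 1 := by
  have h := h2.1 K M
  have hf : Module.finrank K M = 1 := by
    rw [e.toLinearEquiv.finrank_eq, Module.finrank_self]
  have hd : discr M = discr K := NumberField.discr_eq_discr_of_ringEquiv M e.toRingEquiv
  have h0 : (discr K).natAbs ≠ 0 := Int.natAbs_ne_zero.2 (NumberField.discr_ne_zero K)
  rw [hf, pow_one, hd] at h
  have : 1 * (discr K).natAbs = relDisc K M * (discr K).natAbs := by rw [one_mul]; exact h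
  exact (Nat.eq_of_mul_eq_mul_right (Nat.pos_of_ne_zero h0) this).symm

/-- The two-field step. -/
theorem step (h1 : S_DD) (K Ω : Type) [Field K] [NumberField K] [Field Ω] [Algebra K Ω]
    (A B : IntermediateField K Ω) [FiniteDimensional K A] [FiniteDimensional K B]
    (hA : NumberField A) (hB : NumberField B) (n r : ℕ) (X : ℝ) (hX : 1 ≤ X)
    (hBn : Module.finrank K B = n) (hBX : (relDisc K B : ℝ) ≤ X)
    (hAX : (relDisc K A : ℝ) ^ n ≤ X ^ (r * Module.finrank K A))
    (M : IntermediateField K Ω) (hM : M = A ⊔ B) :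
    FiniteDimensional K M ∧ ∃ _ : NumberField M, (relDisc K M : ℝ) ^ n ≤
      X ^ ((r + 1) * Module.finrank K M) := by
  have hAM : A ≤ M := hM ▸ le_sup_left
  have hBM : B ≤ M := hM ▸ le_sup_right
  have hfM : FiniteDimensional K M := by rw [hM]; infer_instance
  refine ⟨hfM, nf_of_fin K M, ?_⟩
  have : NumberField M := nf_of_fin K M
  let : Algebra A M := (IntermediateField.inclusion hAM).toRingHom.toAlgebra
  let : Algebra B M := (IntermediateField.inclusion hBM).toRingHom.toAlgebra
  have : IsScalarTower K A M := IsScalarTower.of_algebraMap_eq (fun x => rfl)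
  have : IsScalarTower K B M := IsScalarTower.of_algebraMap_eq (fun x => rfl)
  have hgen : Gen K A B M := by
    intro F hFA hFB
    have h : A ⊔ B ≤ IntermediateField.lift F := by
      apply sup_le
      · intro a ha
        exact ⟨⟨a, hAM ha⟩, hFA ⟨a, ha⟩, rfl⟩
      · intro b hb
        exact ⟨⟨b, hBM hb⟩, hFB ⟨b, hb⟩, rfl⟩
    rw [eq_top_iff]
    intro x _
    have hx : (x : Ω) ∈ A ⊔ B := hM ▸ x.2
    obtain ⟨y, hy, hyx⟩ := h hx
    have : y = x := Subtype.ext hyx
    exact this ▸ hy
  have hdd := h1 K A B M hgen
  have kA : Module.finrank K A * Module.finrank A M = Module.finrank K M :=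
    Module.finrank_mul_finrank K A M
  have kB : Module.finrank K B * Module.finrank B M = Module.finrank K M :=
    Module.finrank_mul_finrank K B M
  have hdd' : (relDisc K M : ℝ) ≤
      (relDisc K A : ℝ) ^ Module.finrank A M * (relDisc K B : ℝ) ^ Module.finrank B M := by
    exact_mod_cast hdd
  have hX0 : (0 : ℝ) ≤ X := le_trans zero_le_one hX
  calc (relDisc K M : ℝ) ^ n ≤
      ((relDisc K A : ℝ) ^ Module.finrank A M * (relDisc K B : ℝ) ^ Module.finrank B M) ^ n :=
        pow_le_pow_left₀ (Nat.cast_nonneg _) hdd' n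
    _ = ((relDisc K A : ℝ) ^ n) ^ Module.finrank A M *
        (relDisc K B : ℝ) ^ (n * Module.finrank B M) := by
          rw [mul_pow, ← pow_mul, ← pow_mul, ← pow_mul, mul_comm (Module.finrank A M) n,
            mul_comm (Module.finrank B M) n]
    _ ≤ (X ^ (r * Module.finrank K A)) ^ Module.finrank A M *
        X ^ (n * Module.finrank B M) := by
          apply mul_le_mul
          · exact pow_le_pow_left₀ (by positivity) hAX _
          · exact pow_le_pow_left₀ (Nat.cast_nonneg _) hBX _
          · positivity
          · positivity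
    _ = X ^ ((r + 1) * Module.finrank K M) := by
          rw [← pow_mul, ← pow_add, ← hBn, kB, mul_assoc, kA]
          congr 1
          ring

theorem aux (h1 : S_DD) (h2 : S_DI) (K Ω : Type) [Field K] [NumberField K] [Field Ω]
    [Algebra K Ω] (n : ℕ) (X : ℝ) (hn : 1 ≤ n) (hX : 1 ≤ X) (r : ℕ) :
    ∀ (L : Fin r → IntermediateField K Ω),
    (∀ i, Module.finrank K (L i) = n ∧ ∃ _ : NumberField (L i), (relDisc K (L i) : ℝ) ≤ X) →
    ∀ M : IntermediateField K Ω, M = ⨆ i, L i → FiniteDimensional K M ∧
      ∃ _ : NumberField M, (relDisc K M : ℝ) ^ n ≤ X ^ (r * Module.finrank K M) := by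
  induction r with
  | zero =>
    intro L hL M hM
    have hM' : M = ⊥ := by rw [hM]; exact iSup_of_empty L
    subst hM'
    have : FiniteDimensional K (⊥ : IntermediateField K Ω) := inferInstance
    refine ⟨inferInstance, nf_of_fin K _, ?_⟩
    have : NumberField (⊥ : IntermediateField K Ω) := nf_of_fin K _
    rw [relDisc_of_finrank_one h2 K _ (IntermediateField.botEquiv K Ω)]
    simp
  | succ r ih =>
    intro L hL M hM
    obtain ⟨hfA, hA, hAX⟩ := ih (fun i => L i.castSucc) (fun i => hL i.castSucc) _ rfl
    obtain ⟨hBn, hB, hBX⟩ := hL (Fin.last r)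
    have : FiniteDimensional K (L (Fin.last r)) :=
      Module.finite_of_finrank_pos (by rw [hBn]; exact hn)
    have hMs : M = (⨆ i : Fin r, L i.castSucc) ⊔ L (Fin.last r) := by
      rw [hM]
      apply le_antisymm
      · apply iSup_le
        intro i
        induction i using Fin.lastCases with
        | last => exact le_sup_right
        | cast i => exact le_trans (le_iSup (fun i : Fin r => L i.castSucc) i) le_sup_left
      · apply sup_le
        · exact iSup_le (fun i => le_iSup L i.castSucc)
        · exact le_iSup L _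
    exact step h1 K Ω _ _ hA hB n r X hX hBn hBX hAX M hMs

theorem dm (h1 : Pool.Agent.W670.ML.S_DD) (h2 : Pool.Agent.W670.ML.S_DI) :
    Pool.Agent.W670.ML.S_DM := by
  intro K Ω _ _ _ _ n r X L hn hX hL
  exact (aux h1 h2 K Ω n X hn hX r L hL _ rfl).2

end Pool.Agent.W733.ML2
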